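import Pool.Agent.HP25.LL.G
import Pool.Agent.HP25.LM.G

/-!
# The factor `K ^ ε` of the question is needed: discrepancies of the order of the law of the iterated logarithm for almost
all elliptic curves, and for almost all quadratic twists of every elliptic curve

The question is whether the discrepancies of the vectors of `s` consecutive Frobenius angles of an elliptic curve are at most
`C K ^ (ε - 1/2)`. We show that with `ε = 0` this is false on average: for all but a proportion `δ` of the curves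
`y² = x³ + A x + B` with `(A, B)` in any box with sides of at least `M`, there is a `K` between `K₁` and `K₀` such that in ALL
dimensions `s ≥ 1` the star discrepancy is at least `(1 / 3200) √(log log K / K)`; here `M` and `K₀` depend on `δ` and `K₁`
only. For every constant `C`, the bound `C K ^ (-1/2)` fails for 100 percent of the elliptic curves.

The same is shown for the quadratic twists of a fixed curve, for all but `δ x` integers `D` of every interval of `x ≥ M`
consecutive integers, with `K` replaced by the number `n(K)` of the nonzero Frobenius traces at the first `K` primes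
(`n(K) ~ K` by a theorem of Serre if the curve has no complex multiplication).

Method. The first coordinate of the star discrepancy at the point `1/2`, and just above `1/2`, controls the sum of the signs
of the traces, in every dimension, without any bound for the traces (`Pool/Agent/HP25/LL/F`). For `(A, B)` modulo the product
of the first primes the signs are independent, symmetric (quadratic twists), and different from zero with a probability of at
least `2/9` (cubic polynomials without zeros, `Pool/Agent/HP25/LM/F`). A block of `n` of them has a sum of at least `√n / 40`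
with a probability of at least `1/270` (a polynomial of degree four, `Pool/Agent/HP25/LM/B`); blocks of `c log j` such blocks,
whose lengths grow at least like `2 ^ j`, give the order `√(n log log n)` for one of them, with a probability tending to one
(`Pool/Agent/HP25/LM/C`, `Pool/Agent/HP25/LM/D`).
-/

set_option autoImplicit false

namespace Pool.Agent.Results.MP_29be01_nt.EpsilonNeeded

open Finset Filter Topology

/-- The `k`-th prime (`p 0 = 2`). -/
noncomputable def p (k : ℕ) : ℕ := Nat.nth Nat.Prime k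

/-- The trace of Frobenius of `y² = x³ + A x + B` at the `k`-th prime: minus the sum of the quadratic residue symbols of
`x³ + A x + B` over the residues `x`, and `0` if the prime divides `2 (4 A³ + 27 B²)`. -/
noncomputable def trace (A B : ℤ) (k : ℕ) : ℤ :=
  if (p k : ℤ) ∣ 2 * (4 * A ^ 3 + 27 * B ^ 2) then 0
  else -∑ x ∈ range (p k), jacobiSym ((x : ℤ) ^ 3 + A * x + B) (p k)

/-- The angle `x ∈ [0,1]` with `a k = 2 √p_k cos (π x)`. -/
noncomputable def ang (a : ℕ → ℤ) (k : ℕ) : ℝ := Real.arccos ((a k : ℝ) / (2 * √(p k : ℝ))) / Real.pi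

open Classical in
/-- The number of `k < K` for which `(x_k, …, x_{k+s-1})` lies in the box `∏ [u i, v i)`. -/
noncomputable def cnt (a : ℕ → ℤ) (s K : ℕ) (u v : Fin s → ℝ) : ℕ :=
  #{k ∈ range K | ∀ i : Fin s, u i ≤ ang a (k + i) ∧ ang a (k + i) < v i}

/-- The error `|A(R;K)/K - μ_ST^{[s]}(R)|` for the box `R = ∏ [u i, v i)`. -/
noncomputable def err (a : ℕ → ℤ) (s K : ℕ) (u v : Fin s → ℝ) : ℝ :=
  |(cnt a s K u v : ℝ) / K - ∏ i, ∫ t in (u i)..(v i), 2 * Real.sin (Real.pi * t) ^ 2|

/-- The star discrepancy `D_K^{*,[s]}`. -/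
noncomputable def starDisc (a : ℕ → ℤ) (s K : ℕ) : ℝ :=
  sSup {d | ∃ v : Fin s → ℝ, (∀ i, 0 ≤ v i ∧ v i ≤ 1) ∧ d = err a s K (fun _ => 0) v}

open Classical in
/-- The number `n(K)` of the nonzero traces at the first `K` primes. -/
noncomputable def nonzero (A B : ℤ) (K : ℕ) : ℕ := ((range K).filter (fun k : ℕ => trace A B k ≠ 0)).card

open Classical in
/-- The integers `c < D ≤ c + x` without the property `P`. -/
noncomputable def exceptions (c : ℤ) (x : ℕ) (P : ℤ → Prop) : Finset ℤ := (Ioc c (c + x)).filter (fun D : ℤ => ¬ P D)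

open Classical in
/-- The pairs of integers `(A, B)` with `c < A ≤ c + x` and `c' < B ≤ c' + x'` without the property `P`. -/
noncomputable def exceptionsBox (c c' : ℤ) (x x' : ℕ) (P : ℤ × ℤ → Prop) : Finset (ℤ × ℤ) :=
  (Ioc c (c + x) ×ˢ Ioc c' (c' + x')).filter (fun t : ℤ × ℤ => ¬ P t)

/-- (1) Let `δ > 0` and `K₁`. There are `K₀` and `M` such that for all but at most `δ x x'` pairs `(A, B)` of integers in every
box with sides `x, x' ≥ M` there is a `K` with `K₁ ≤ K ≤ K₀` for which, in all dimensions `s ≥ 1`, the star discrepancy of the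
angles of `y² = x³ + A x + B` satisfies `K D_K ≥ (1 / 3200) √(K log log K)`.

(2) Let `C` and `δ > 0`. There are `K₀` and `M` such that for all but at most `δ x x'` pairs `(A, B)` in every box with sides
`x, x' ≥ M` there is a `1 ≤ K ≤ K₀` with `√K D_K ≥ C` in all dimensions `s ≥ 1`.

(3) Let infinitely many Frobenius traces of `y² = x³ + A x + B` be different from zero (this is so for every elliptic curve),
and let `δ > 0` and `K₁`. There are `K₀` and `M` such that for all but at most `δ x` integers `D` of every interval of `x ≥ M`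
consecutive integers there is a `K` with `K₁ ≤ K ≤ K₀` for which, in all dimensions `s ≥ 1`, the star discrepancy of the
quadratic twist `y² = x³ + A D² x + B D³` satisfies `K D_K ≥ (1 / 240) √(n(K) log log n(K))`. -/
theorem result :
    (∀ δ : ℝ, 0 < δ → ∀ K₁ : ℕ, ∃ K₀ M : ℕ, ∀ x x' : ℕ, M ≤ x → M ≤ x' → ∀ c c' : ℤ,
      ((exceptionsBox c c' x x' fun t => ∃ K, K₁ ≤ K ∧ K ≤ K₀ ∧ ∀ s : ℕ, 1 ≤ s →
        1 / 3200 * √(K * Real.log (Real.log K)) ≤ K * starDisc (trace t.1 t.2) s K).card : ℝ) ≤ δ * (x * x')) ∧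
    (∀ C δ : ℝ, 0 < δ → ∃ K₀ M : ℕ, ∀ x x' : ℕ, M ≤ x → M ≤ x' → ∀ c c' : ℤ,
      ((exceptionsBox c c' x x' fun t => ∃ K, 1 ≤ K ∧ K ≤ K₀ ∧ ∀ s : ℕ, 1 ≤ s →
        C ≤ √K * starDisc (trace t.1 t.2) s K).card : ℝ) ≤ δ * (x * x')) ∧
    (∀ A B : ℤ, {k : ℕ | trace A B k ≠ 0}.Infinite → ∀ δ : ℝ, 0 < δ → ∀ K₁ : ℕ, ∃ K₀ M : ℕ, ∀ x : ℕ, M ≤ x → ∀ c : ℤ,
      ((exceptions c x fun D => ∃ K, K₁ ≤ K ∧ K ≤ K₀ ∧ ∀ s : ℕ, 1 ≤ s →
        1 / 240 * √(nonzero A B K * Real.log (Real.log (nonzero A B K))) ≤
          K * starDisc (trace (A * D ^ 2) (B * D ^ 3)) s K).card : ℝ) ≤ δ * x) := by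
  classical
  have e1 : ∀ A B, trace A B = Pool.Agent.HP25.LL.tr A B := fun _ _ => rfl
  have e2 : ∀ A B K, nonzero A B K = Pool.Agent.HP25.LL.nn A B K := fun _ _ _ => rfl
  have e3 : ∀ a s K, starDisc a s K = Pool.Agent.HP25.LL.starDisc a s K := fun _ _ _ => rfl
  have h1 : ∀ δ : ℝ, 0 < δ → ∀ K₁ : ℕ, ∃ K₀ M : ℕ, ∀ x x' : ℕ, M ≤ x → M ≤ x' → ∀ c c' : ℤ,
      ((exceptionsBox c c' x x' fun t => ∃ K, K₁ ≤ K ∧ K ≤ K₀ ∧ ∀ s : ℕ, 1 ≤ s →
        1 / 3200 * √(K * Real.log (Real.log K)) ≤ K * starDisc (trace t.1 t.2) s K).card : ℝ) ≤ δ * (x * x') := by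
    intro δ hδ K₁
    obtain ⟨K₀, M, h⟩ := Pool.Agent.HP25.LM.main2 δ hδ K₁
    refine ⟨K₀, M, fun x x' hx hx' c c' => h x x' hx hx' c c' _ (filter_subset _ _) fun t ht => ?_⟩
    exact (mem_filter.1 ht).2
  refine ⟨h1, fun C δ hδ => ?_, fun A B hinf δ hδ K₁ => ?_⟩
  · have hlim : Tendsto (fun K : ℕ => Real.log (Real.log (K : ℝ))) atTop atTop :=
      Real.tendsto_log_atTop.comp (Real.tendsto_log_atTop.comp tendsto_natCast_atTop_atTop)
    obtain ⟨K₂, hK₂⟩ := (hlim.eventually_ge_atTop ((3200 * C) ^ 2)).exists_forall_of_atTop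
    obtain ⟨K₀, M, h⟩ := h1 δ hδ (K₂ + 1)
    refine ⟨K₀, M, fun x x' hx hx' c c' => le_trans (Nat.cast_le.2 (card_le_card ?_)) (h x x' hx hx' c c')⟩
    intro t ht
    unfold exceptionsBox at ht ⊢
    rw [mem_filter] at ht ⊢
    refine ⟨ht.1, fun hex => ht.2 ?_⟩
    obtain ⟨K, hK1, hK0, hK⟩ := hex
    refine ⟨K, by omega, hK0, fun s hs => ?_⟩
    have h2 := hK s hs
    have h3 := hK₂ K (by omega)
    have hK0' : (0 : ℝ) < K := by exact_mod_cast (by omega : 0 < K)
    have h9 : 3200 * C * √(K : ℝ) ≤ √(K * Real.log (Real.log K)) := by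
      apply Real.le_sqrt_of_sq_le
      rw [mul_pow, Real.sq_sqrt hK0'.le, mul_comm]
      exact mul_le_mul_of_nonneg_left h3 hK0'.le
    have h10 : √(K : ℝ) * C ≤ √(K : ℝ) * (√(K : ℝ) * starDisc (trace t.1 t.2) s K) := by
      rw [← mul_assoc, Real.mul_self_sqrt hK0'.le]
      linarith
    exact le_of_mul_le_mul_left h10 (Real.sqrt_pos.2 hK0')
  · obtain ⟨K₀, M, h⟩ := Pool.Agent.HP25.LL.main (A := A) (B := B) hinf δ hδ K₁
    refine ⟨K₀, M, fun x hx c => h x hx c _ (filter_subset _ _) fun D hD => ?_⟩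
    exact (mem_filter.1 hD).2

end Pool.Agent.Results.MP_29be01_nt.EpsilonNeeded
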