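import Pool.Agent.HP25.FA.D

/-!
# The Frobenius angles at `s` consecutive primes in one-parameter families of elliptic curves: all boxes, with square-root
# error against the finite-field model, for ALL parameters close to the multiples of almost all points of any measure with
# polynomial Fourier decay

The family is `Y² = X³ + f(t) X + g(t)` with arbitrary polynomials `f, g ∈ ℤ[T]`. Let `ν` be ANY probability measure on the
line whose Fourier transform decays at least as fast as some power (its support may have any positive dimension), and let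
`λ_k ≥ 1` with `∑ λ_k ^ (-κ) < ∞`. For `ν`-almost every `x` and all large `k` ALL the integers `t` with
`|t - λ_k x| ≤ λ_k ^ κ` are treated, at all lengths `L ≤ λ_k ^ κ`.

Method: the nearest integer to `λ x`, modulo a large number and smoothed by a Fejér kernel, is uniformly distributed in
residue classes with a power saving (`Pool/Agent/HP25/FA/C`); high even moments of sums of functions with coprime periods
(`Pool/Agent/HP25/FA/A`, after `Pool/Agent/TH869/SQ` and `Pool/Agent/N384/MQ`).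
-/

set_option autoImplicit false

namespace Pool.Agent.Results.MP_29be01_nt.FourierDimensionZero

open Finset Polynomial MeasureTheory Filter

/-- The number of the solutions `(x, y)` of `y² = x³ + A x + B` modulo `p`. -/
def points (p : ℕ) (A B : ℤ) : ℕ :=
  ((range p ×ˢ range p).filter
    (fun xy : ℕ × ℕ => (p : ℤ) ∣ (xy.2 : ℤ) ^ 2 - ((xy.1 : ℤ) ^ 3 + A * xy.1 + B))).card

/-- The Frobenius angle in `[0, 1]` of the curve `y² = x³ + A x + B` at the prime `p`: it is `θ` with
`2 p ^ (1 / 2) cos (π θ) = p + 1 - #E(F_p) = p - points p A B`, and `1 / 2` if `p ∣ 2 (4 A³ + 27 B²)`. -/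
noncomputable def angle (A B : ℤ) (p : ℕ) : ℝ :=
  if (p : ℤ) ∣ 2 * (4 * A ^ 3 + 27 * B ^ 2) then 1 / 2
  else Real.arccos (((p : ℝ) - points p A B) / (2 * Real.sqrt p)) / Real.pi

open Classical in
/-- The number of the `k < L` such that the angles of the curve `y² = x³ + A x + B` at the `s` consecutive primes with the
numbers `k, ..., k + s - 1` (the primes are numbered from `0`) are in `I 0, ..., I (s - 1)`. -/
noncomputable def boxCount {s : ℕ} (A B : ℤ) (I : Fin s → Set ℝ) (L : ℕ) : ℕ :=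
  ((range L).filter (fun k => ∀ i : Fin s, angle A B (Nat.nth Nat.Prime (k + i)) ∈ I i)).card

open Classical in
/-- The proportion of the residues `t` modulo `p` for which the angle of `y² = x³ + f(t) x + g(t)` at `p` is in `S`. -/
noncomputable def proportion (f g : ℤ[X]) (p : ℕ) (S : Set ℝ) : ℝ :=
  ((range p).filter (fun t : ℕ => angle (f.eval (t : ℤ)) (g.eval (t : ℤ)) p ∈ S)).card / p

/-- The expected number: the sum over `k < L` of the product of the proportions at the `s` primes. -/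
noncomputable def boxModel {s : ℕ} (f g : ℤ[X]) (I : Fin s → Set ℝ) (L : ℕ) : ℝ :=
  ∑ k ∈ range L, ∏ i : Fin s, proportion f g (Nat.nth Nat.Prime (k + i)) (I i)

theorem points_congr (p : ℕ) {A A' B B' : ℤ} (hA : (p : ℤ) ∣ A - A') (hB : (p : ℤ) ∣ B - B') :
    points p A B = points p A' B' := by
  unfold points
  congr 1
  apply filter_congr
  intro xy _
  have h : (p : ℤ) ∣ ((xy.2 : ℤ) ^ 2 - ((xy.1 : ℤ) ^ 3 + A * xy.1 + B)) -
      ((xy.2 : ℤ) ^ 2 - ((xy.1 : ℤ) ^ 3 + A' * xy.1 + B')) := by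
    have e : ((xy.2 : ℤ) ^ 2 - ((xy.1 : ℤ) ^ 3 + A * xy.1 + B)) -
      ((xy.2 : ℤ) ^ 2 - ((xy.1 : ℤ) ^ 3 + A' * xy.1 + B')) = -((A - A') * xy.1 + (B - B')) := by ring
    rw [e]
    exact (dvd_add (hA.mul_right _) hB).neg_right
  exact (dvd_iff_dvd_of_dvd_sub h)

theorem angle_congr (p : ℕ) {A A' B B' : ℤ} (hA : (p : ℤ) ∣ A - A') (hB : (p : ℤ) ∣ B - B') :
    angle A B p = angle A' B' p := by
  unfold angle
  rw [points_congr p hA hB]
  have h : (p : ℤ) ∣ 2 * (4 * A ^ 3 + 27 * B ^ 2) - 2 * (4 * A' ^ 3 + 27 * B' ^ 2) := by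
    have e : 2 * (4 * A ^ 3 + 27 * B ^ 2) - 2 * (4 * A' ^ 3 + 27 * B' ^ 2) =
      (A - A') * (8 * (A ^ 2 + A * A' + A' ^ 2)) + (B - B') * (54 * (B + B')) := by ring
    rw [e]
    exact dvd_add (hA.mul_right _) (hB.mul_right _)
  have h2 := dvd_iff_dvd_of_dvd_sub h
  by_cases h3 : (p : ℤ) ∣ 2 * (4 * A ^ 3 + 27 * B ^ 2)
  · rw [if_pos h3, if_pos (h2.mp h3)]
  · rw [if_neg h3, if_neg (fun h4 => h3 (h2.mpr h4))]

theorem angle_per (f g : ℤ[X]) (p : ℕ) (t : ℤ) :
    angle (f.eval (t + p)) (g.eval (t + p)) p = angle (f.eval t) (g.eval t) p := by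
  have hd : ∀ f : ℤ[X], (p : ℤ) ∣ f.eval (t + p) - f.eval t := by
    intro f
    have := f.sub_dvd_eval_sub (t + p) t
    rwa [add_sub_cancel_left] at this
  exact angle_congr p (hd f) (hd g)

theorem count_eq {s : ℕ} (A B : ℤ) (I : Fin s → Set ℝ) (L : ℕ) : (boxCount A B I L : ℝ) = ∑ k ∈ range L,
    Pool.Agent.TH869.SQ.ind I (fun i : Fin s => angle A B (Pool.Agent.TH869.SQ.pr (k + i))) := by
  unfold boxCount Pool.Agent.TH869.SQ.ind Pool.Agent.TH869.SQ.pr
  rw [sum_boole]

theorem model_eq {s : ℕ} (f g : ℤ[X]) (I : Fin s → Set ℝ) (L : ℕ) : boxModel f g I L = ∑ k ∈ range L, ∏ i : Fin s,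
    Pool.Agent.TH869.SQ.mean (Pool.Agent.TH869.SQ.pr (k + i)) (fun t : ℕ => Pool.Agent.TH869.SQ.ind1 (I i)
      (angle (f.eval (t : ℤ)) (g.eval (t : ℤ)) (Pool.Agent.TH869.SQ.pr (k + i)))) := by
  unfold boxModel proportion Pool.Agent.TH869.SQ.mean Pool.Agent.TH869.SQ.ind1 Pool.Agent.TH869.SQ.pr
  refine sum_congr rfl fun k _ => prod_congr rfl fun i _ => ?_
  rw [sum_boole]

theorem countable_poly : Countable ℤ[X] := by
  have : Function.Injective (fun f : ℤ[X] => (List.range (f.natDegree + 1)).map f.coeff) := by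
    intro f g h
    simp only at h
    have h1 : f.natDegree = g.natDegree := by
      have := congrArg List.length h
      simpa using this
    ext i
    rcases Nat.lt_or_ge i (f.natDegree + 1) with hi | hi
    · have := congrArg (fun l => l[i]?) h
      simp [hi, h1 ▸ hi] at this
      exact this
    · rw [Polynomial.coeff_eq_zero_of_natDegree_lt (by omega), Polynomial.coeff_eq_zero_of_natDegree_lt (by omega)]
  exact this.countable

/-- Let `C₀`, `c > 0`, `s ≥ 1` and `δ > 0`. There are `κ > 0` and `C` such that for all probability measures `ν` on the line with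
`|E exp (i u x)| ≤ C₀ |u| ^ (-c)` for all `u`, and for all real numbers `λ_k ≥ 1` with `∑ λ_k ^ (-κ) < ∞`, the following holds
for `ν`-almost every `x`. For ALL polynomials `f, g ∈ ℤ[T]` and all large `k`, for ALL the integers `t` with
`|t - λ_k x| ≤ λ_k ^ κ`, every `L ≤ λ_k ^ κ` and every product of `s` intervals, the number of the `n < L` such that the
Frobenius angles of the elliptic curve `y² = x³ + f(t) x + g(t)` at the `s` consecutive primes with the numbers
`n, ..., n + s - 1` are in the intervals differs from the expected number by at most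
`C L ^ (1 / 2 + δ) (1 + log λ_k) ^ (1 / 2)`. -/
theorem result (C₀ c : ℝ) (hc : 0 < c) (s : ℕ) (hs : 1 ≤ s) (δ : ℝ) (hδ : 0 < δ) :
    ∃ κ C : ℝ, 0 < κ ∧ 1 ≤ C ∧ ∀ (ν : Measure ℝ) [IsProbabilityMeasure ν], (∀ u : ℝ, ‖charFun ν u‖ * |u| ^ c ≤ C₀) →
      ∀ lam : ℕ → ℝ, (∀ k, 1 ≤ lam k) → Summable (fun k => lam k ^ (-κ)) →
      ∀ᵐ x ∂ν, ∀ f g : ℤ[X], ∀ᶠ k : ℕ in atTop, ∀ t : ℤ, |(t : ℝ) - lam k * x| ≤ lam k ^ κ →
        ∀ L : ℕ, (L : ℝ) ≤ lam k ^ κ → ∀ I : Fin s → Set ℝ, (∀ i, (I i).OrdConnected) →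
          |(boxCount (f.eval t) (g.eval t) I L : ℝ) - boxModel f g I L| ≤
            C * ((L : ℝ) ^ (1 / 2 + δ) * √(1 + Real.log (lam k))) := by
  obtain ⟨κ, C, hκ, hC, H⟩ := Pool.Agent.HP25.FA.ae_consecutive C₀ c hc s hs δ hδ
  refine ⟨κ, C, hκ, hC, fun ν _ hdec lam hlam hsum => ?_⟩
  have := countable_poly
  rw [ae_all_iff]
  intro f
  rw [ae_all_iff]
  intro g
  filter_upwards [H ν hdec lam hlam hsum (fun p t => angle (f.eval t) (g.eval t) p) (fun p t => angle_per f g p t)] with x hx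
  filter_upwards [hx] with k hk t ht L hL I hI
  have h := hk t ht L hL I hI
  unfold Pool.Agent.HP25.FA.dif at h
  rw [sum_sub_distrib] at h
  rw [count_eq, model_eq]
  exact h

end Pool.Agent.Results.MP_29be01_nt.FourierDimensionZero
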