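import Pool.Agent.HP25.FN.B

/-!
# The Frobenius angles at `s` consecutive primes in one-parameter families of elliptic curves: all boxes, with square-root
# error against the finite-field model, for ALL parameters close to the values of a function of non-integral order at almost
# all integers with restricted digits

The family is `Y² = X³ + f(t) X + g(t)` with arbitrary polynomials `f, g ∈ ℤ[T]`. Let `φ` be a smoothly varying function whose
order `c > 0` is not an integer, for example `φ(x) = x ^ c`, and let `n` run through the integers below `b ^ k` whose digits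
with the numbers `j < k` are in arbitrary sets `D j` of at least two digits (for instance all integers below `b ^ k`, or the
integers without the digit `1` in base `3`). With `N = φ (b ^ k)` and outside of an exceptional set of these `n` whose
proportion is at most `C N ^ (-κ)`, ALL the integers `t` with `|t - φ(n)| ≤ N ^ κ` are treated, at all lengths `L ≤ N ^ κ`.

Method: the Fourier transform of the law of `φ(n) / N`, for a random `n`, decays like a power up to the frequency `N`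
(`Pool/Agent/HP25/NI/C`, `Pool/Agent/HP25/FN/B`). So the nearest integer to `φ(n)`, modulo a large number and smoothed by a
Fejér kernel, is uniformly distributed in residue classes with a power saving (`Pool/Agent/HP25/FN/A`); high even moments of
sums of functions with coprime periods (`Pool/Agent/HP25/FA/A`, after `Pool/Agent/TH869/SQ` and `Pool/Agent/N384/MQ`).
-/

set_option autoImplicit false

namespace Pool.Agent.Results.MP_29be01_nt.NonIntegralOrder

open Finset Polynomial Filter Topology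

/-- The number of the solutions `(x, y)` of `y² = x³ + A x + B` modulo `p`. -/
def points (p : ℕ) (A B : ℤ) : ℕ :=
  ((range p ×ˢ range p).filter
    (fun xy : ℕ × ℕ => (p : ℤ) ∣ (xy.2 : ℤ) ^ 2 - ((xy.1 : ℤ) ^ 3 + A * xy.1 + B))).card

/-- The Frobenius angle in `[0, 1]` of the curve `y² = x³ + A x + B` at the prime `p`: it is `θ` with
`2 p ^ (1 / 2) cos (π θ) = p + 1 - #E(F_p) = p - points p A B`, and `1 / 2` if `p ∣ 2 (4 A³ + 27 B²)`. -/
noncomputable def angle (A B : ℤ) (p : ℕ) : ℝ :=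
  if (p : ℤ) ∣ 2 * (4 * A ^ 3 + 27 * B ^ 2) then 1 / 2
  else Real.arccos (((p : ℝ) - points p A B) / (2 * Real.sqrt p)) / Real.pi

open Classical in
/-- The number of the `k < L` such that the angles of the curve `y² = x³ + A x + B` at the `s` consecutive primes with the
numbers `k, ..., k + s - 1` (the primes are numbered from `0`) are in `I 0, ..., I (s - 1)`. -/
noncomputable def boxCount {s : ℕ} (A B : ℤ) (I : Fin s → Set ℝ) (L : ℕ) : ℕ :=
  ((range L).filter (fun k => ∀ i : Fin s, angle A B (Nat.nth Nat.Prime (k + i)) ∈ I i)).card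

open Classical in
/-- The proportion of the residues `t` modulo `p` for which the angle of `y² = x³ + f(t) x + g(t)` at `p` is in `S`. -/
noncomputable def proportion (f g : ℤ[X]) (p : ℕ) (S : Set ℝ) : ℝ :=
  ((range p).filter (fun t : ℕ => angle (f.eval (t : ℤ)) (g.eval (t : ℤ)) p ∈ S)).card / p

/-- The expected number: the sum over `k < L` of the product of the proportions at the `s` primes. -/
noncomputable def boxModel {s : ℕ} (f g : ℤ[X]) (I : Fin s → Set ℝ) (L : ℕ) : ℝ :=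
  ∑ k ∈ range L, ∏ i : Fin s, proportion f g (Nat.nth Nat.Prime (k + i)) (I i)

theorem points_congr (p : ℕ) {A A' B B' : ℤ} (hA : (p : ℤ) ∣ A - A') (hB : (p : ℤ) ∣ B - B') :
    points p A B = points p A' B' := by
  unfold points
  congr 1
  apply filter_congr
  intro xy _
  have h : (p : ℤ) ∣ ((xy.2 : ℤ) ^ 2 - ((xy.1 : ℤ) ^ 3 + A * xy.1 + B)) -
      ((xy.2 : ℤ) ^ 2 - ((xy.1 : ℤ) ^ 3 + A' * xy.1 + B')) := by
    have e : ((xy.2 : ℤ) ^ 2 - ((xy.1 : ℤ) ^ 3 + A * xy.1 + B)) -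
      ((xy.2 : ℤ) ^ 2 - ((xy.1 : ℤ) ^ 3 + A' * xy.1 + B')) = -((A - A') * xy.1 + (B - B')) := by ring
    rw [e]
    exact (dvd_add (hA.mul_right _) hB).neg_right
  exact (dvd_iff_dvd_of_dvd_sub h)

theorem angle_congr (p : ℕ) {A A' B B' : ℤ} (hA : (p : ℤ) ∣ A - A') (hB : (p : ℤ) ∣ B - B') :
    angle A B p = angle A' B' p := by
  unfold angle
  rw [points_congr p hA hB]
  have h : (p : ℤ) ∣ 2 * (4 * A ^ 3 + 27 * B ^ 2) - 2 * (4 * A' ^ 3 + 27 * B' ^ 2) := by
    have e : 2 * (4 * A ^ 3 + 27 * B ^ 2) - 2 * (4 * A' ^ 3 + 27 * B' ^ 2) =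
      (A - A') * (8 * (A ^ 2 + A * A' + A' ^ 2)) + (B - B') * (54 * (B + B')) := by ring
    rw [e]
    exact dvd_add (hA.mul_right _) (hB.mul_right _)
  have h2 := dvd_iff_dvd_of_dvd_sub h
  by_cases h3 : (p : ℤ) ∣ 2 * (4 * A ^ 3 + 27 * B ^ 2)
  · rw [if_pos h3, if_pos (h2.mp h3)]
  · rw [if_neg h3, if_neg (fun h4 => h3 (h2.mpr h4))]

theorem angle_per (f g : ℤ[X]) (p : ℕ) (t : ℤ) :
    angle (f.eval (t + p)) (g.eval (t + p)) p = angle (f.eval t) (g.eval t) p := by
  have hd : ∀ f : ℤ[X], (p : ℤ) ∣ f.eval (t + p) - f.eval t := by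
    intro f
    have := f.sub_dvd_eval_sub (t + p) t
    rwa [add_sub_cancel_left] at this
  exact angle_congr p (hd f) (hd g)

theorem count_eq {s : ℕ} (A B : ℤ) (I : Fin s → Set ℝ) (L : ℕ) : (boxCount A B I L : ℝ) = ∑ k ∈ range L,
    Pool.Agent.TH869.SQ.ind I (fun i : Fin s => angle A B (Pool.Agent.TH869.SQ.pr (k + i))) := by
  unfold boxCount Pool.Agent.TH869.SQ.ind Pool.Agent.TH869.SQ.pr
  rw [sum_boole]

theorem model_eq {s : ℕ} (f g : ℤ[X]) (I : Fin s → Set ℝ) (L : ℕ) : boxModel f g I L = ∑ k ∈ range L, ∏ i : Fin s,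
    Pool.Agent.TH869.SQ.mean (Pool.Agent.TH869.SQ.pr (k + i)) (fun t : ℕ => Pool.Agent.TH869.SQ.ind1 (I i)
      (angle (f.eval (t : ℤ)) (g.eval (t : ℤ)) (Pool.Agent.TH869.SQ.pr (k + i)))) := by
  unfold boxModel proportion Pool.Agent.TH869.SQ.mean Pool.Agent.TH869.SQ.ind1 Pool.Agent.TH869.SQ.pr
  refine sum_congr rfl fun k _ => prod_congr rfl fun i _ => ?_
  rw [sum_boole]

/-- `φ` is smoothly varying of order `c`: it is infinitely differentiable and positive for large arguments, and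
`t ^ m φ⁽ᵐ⁾(t) / φ(t) → c (c - 1) ... (c - m + 1)` for every `m`. -/
def SmoothlyVarying (c : ℝ) (φ : ℝ → ℝ) : Prop :=
  (∃ t₀ : ℝ, ∀ t > t₀, ContDiffAt ℝ ((⊤ : ℕ∞) : WithTop ℕ∞) φ t ∧ 0 < φ t) ∧
  ∀ m : ℕ, Tendsto (fun t => t ^ m * iteratedDeriv m φ t / φ t) atTop (𝓝 (∏ i ∈ range m, (c - i)))

/-- The integers `n < b ^ k` whose digit number `j` in base `b` belongs to `D j`, for all `j < k`. -/
def digitSet (b : ℕ) (D : ℕ → Finset ℕ) (k : ℕ) : Finset ℕ :=
  (range (b ^ k)).filter fun n => ∀ j < k, n / b ^ j % b ∈ D j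

lemma sv_of (c : ℝ) (hc : 0 < c) (hn : ∀ m : ℕ, c ≠ m) (f : ℝ → ℝ) (h : SmoothlyVarying c f) :
    Pool.Agent.N193.PS.SV c (fun m => iteratedDeriv m f) := by
  obtain ⟨⟨t₀, h0⟩, hlim⟩ := h
  refine ⟨hc, hn, ⟨t₀ + 1, fun m t ht => ?_⟩, ?_, fun m => ?_⟩
  · have h1 := (h0 t (by linarith)).1
    have h2 : DifferentiableAt ℝ (iteratedDeriv m f) t := by
      rw [iteratedDeriv_eq_equiv_comp, LinearIsometryEquiv.comp_differentiableAt_iff]
      exact h1.differentiableAt_iteratedFDeriv (by exact_mod_cast WithTop.coe_lt_top m)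
    show HasDerivAt (iteratedDeriv m f) (iteratedDeriv (m + 1) f t) t
    rw [iteratedDeriv_succ]
    exact h2.hasDerivAt
  · filter_upwards [eventually_gt_atTop t₀] with t ht
    simp only [iteratedDeriv_zero]
    exact (h0 t ht).2
  · simpa only [iteratedDeriv_zero] using hlim m

open Classical in
/-- Let `b ≥ 2`, let `φ` be smoothly varying of an order `c > 0` which is not an integer, `s ≥ 1` and `δ > 0`. There are
`κ > 0`, `C` and `k₀` such that for all `k ≥ k₀`, all sets `D j`, `j < k`, of at least two digits in base `b` and ALL polynomials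
`f, g ∈ ℤ[T]`, with `N = φ (b ^ k)`, the following holds for all `n < b ^ k` with the `j`-th digit in `D j` for all `j < k`, with
the exception of at most a proportion `C N ^ (-κ)` of them: for ALL the integers `t` with `|t - φ(n)| ≤ N ^ κ`, every
`L ≤ N ^ κ` and every product of `s` intervals, the number of the `m < L` such that the Frobenius angles of the elliptic curve
`y² = x³ + f(t) x + g(t)` at the `s` consecutive primes with the numbers `m, ..., m + s - 1` are in the intervals differs from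
the expected number by at most `C L ^ (1 / 2 + δ) (1 + log N) ^ (1 / 2)`. -/
theorem result (b : ℕ) (hb : 2 ≤ b) (c : ℝ) (hc : 0 < c) (hn : ∀ m : ℕ, c ≠ m) (φ : ℝ → ℝ) (hφ : SmoothlyVarying c φ)
    (s : ℕ) (hs : 1 ≤ s) (δ : ℝ) (hδ : 0 < δ) :
    ∃ (κ C : ℝ) (k₀ : ℕ), 0 < κ ∧ 1 ≤ C ∧ ∀ k, k₀ ≤ k → ∀ D : ℕ → Finset ℕ, (∀ j < k, D j ⊆ range b ∧ 2 ≤ (D j).card) →
      ∀ f g : ℤ[X],
      (((digitSet b D k).filter fun n : ℕ => ¬ ∀ t : ℤ, |(t : ℝ) - φ (n : ℝ)| ≤ φ ((b : ℝ) ^ k) ^ κ →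
        ∀ L : ℕ, (L : ℝ) ≤ φ ((b : ℝ) ^ k) ^ κ → ∀ I : Fin s → Set ℝ, (∀ i, (I i).OrdConnected) →
          |(boxCount (f.eval t) (g.eval t) I L : ℝ) - boxModel f g I L| ≤
            C * ((L : ℝ) ^ (1 / 2 + δ) * √(1 + Real.log (φ ((b : ℝ) ^ k))))).card : ℝ) ≤
        C * ((digitSet b D k).card * φ ((b : ℝ) ^ k) ^ (-κ)) := by
  obtain ⟨k₁, C₀, δ₀, hC₀, hδ0, hδ1, H⟩ := Pool.Agent.HP25.FN.sv_tdecay b hb (sv_of c hc hn φ hφ)
  simp only [iteratedDeriv_zero] at H
  obtain ⟨κ, C, hκ, hC, H'⟩ := Pool.Agent.HP25.FN.near_consecutive C₀ δ₀ hC₀ hδ0 hδ1 s hs δ hδ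
  refine ⟨κ, C, k₁, hκ, hC, fun k hk D hD f g => ?_⟩
  obtain ⟨hlam, H⟩ := H k hk
  obtain ⟨hcard, hT⟩ := H D hD
  obtain ⟨lam, hl⟩ : ∃ lam, lam = φ ((b : ℝ) ^ k) := ⟨_, rfl⟩
  rw [← hl] at hlam hT ⊢
  have hlam0 : 0 < lam := by linarith
  have hcard0 : (0 : ℝ) < (Pool.Agent.TH872.Sq.SD b D k).card := by exact_mod_cast hcard
  have := Pool.Agent.HP25.FN.law_prob (Pool.Agent.TH872.Sq.SD b D k) (fun n => φ n / lam) hcard
  have h1 := H' (Pool.Agent.HP25.FN.law (Pool.Agent.TH872.Sq.SD b D k) fun n => φ n / lam) lam hT hlam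
    (fun p t => angle (f.eval t) (g.eval t) p) (fun p t => angle_per f g p t)
  rw [Pool.Agent.HP25.FN.law_real _ _ hcard, div_le_iff₀ hcard0] at h1
  have hS : digitSet b D k = Pool.Agent.TH872.Sq.SD b D k := rfl
  rw [hS]
  have h4 : C * lam ^ (-κ) * ((Pool.Agent.TH872.Sq.SD b D k).card : ℝ) =
      C * ((Pool.Agent.TH872.Sq.SD b D k).card * lam ^ (-κ)) := by ring
  rw [h4] at h1
  refine le_trans ?_ h1
  rw [Nat.cast_le]
  apply card_le_card
  intro n hn
  rw [mem_filter] at hn ⊢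
  refine ⟨hn.1, ?_⟩
  obtain ⟨-, h2⟩ := hn
  push Not at h2
  obtain ⟨t, ht, L, hL, I, hI, h3⟩ := h2
  refine ⟨t, ?_, L, hL, I, hI, ?_⟩
  · rwa [mul_div_cancel₀ _ hlam0.ne']
  · unfold Pool.Agent.HP25.FA.dif
    rw [sum_sub_distrib]
    rw [count_eq, model_eq] at h3
    exact h3

end Pool.Agent.Results.MP_29be01_nt.NonIntegralOrder
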