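import Pool.Agent.HP25.FA.B

/-!
# The Frobenius angles at `s` consecutive primes: all boxes, with square-root error against the finite-field model, for
# one-parameter families of elliptic curves with a parameter which has random digits

The family is `Y² = X³ + f(n) X + g(n)` with arbitrary polynomials `f, g ∈ ℤ[T]`. The parameter `n < b ^ K` has independent
digits in base `b`, with any laws for which no value of a digit has a probability larger than `1 - η`; for instance, `n` is
a random member of a set of integers given by restricted digits (`n` with the digits `0` and `1` only in base `3` or `10`,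
or with the digit number `i` in `D i`, where the `D i` are any sets of at least two digits). The exceptional `n` have a
probability of at most `C exp (-c √K)`, and all boxes are treated at all lengths `L ≤ exp (c √K)`.

Method: distribution of integers with random digits in residue classes (`Pool/Agent/TH872/Sq`, `Pool/Agent/HP25/RD`), high
even moments of sums of functions with coprime periods with respect to a random integer which is well distributed only for
moduli coprime to a fixed number (`Pool/Agent/HP25/FA`, after `Pool/Agent/TH869/SQ` and `Pool/Agent/N384/MQ`).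
-/

set_option autoImplicit false

namespace Pool.Agent.Results.MP_29be01_nt.RandomDigits

open Finset Polynomial

/-- The number of the solutions `(x, y)` of `y² = x³ + A x + B` modulo `p`. -/
def points (p : ℕ) (A B : ℤ) : ℕ :=
  ((range p ×ˢ range p).filter
    (fun xy : ℕ × ℕ => (p : ℤ) ∣ (xy.2 : ℤ) ^ 2 - ((xy.1 : ℤ) ^ 3 + A * xy.1 + B))).card

/-- The Frobenius angle in `[0, 1]` of the curve `y² = x³ + A x + B` at the prime `p`: it is `θ` with
`2 p ^ (1 / 2) cos (π θ) = p + 1 - #E(F_p) = p - points p A B`, and `1 / 2` if `p ∣ 2 (4 A³ + 27 B²)`. -/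
noncomputable def angle (A B : ℤ) (p : ℕ) : ℝ :=
  if (p : ℤ) ∣ 2 * (4 * A ^ 3 + 27 * B ^ 2) then 1 / 2
  else Real.arccos (((p : ℝ) - points p A B) / (2 * Real.sqrt p)) / Real.pi

open Classical in
/-- The number of the `k < L` such that the angles of the curve `y² = x³ + A x + B` at the `s` consecutive primes with the
numbers `k, ..., k + s - 1` (the primes are numbered from `0`) are in `I 0, ..., I (s - 1)`. -/
noncomputable def boxCount {s : ℕ} (A B : ℤ) (I : Fin s → Set ℝ) (L : ℕ) : ℕ :=
  ((range L).filter (fun k => ∀ i : Fin s, angle A B (Nat.nth Nat.Prime (k + i)) ∈ I i)).card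

open Classical in
/-- The proportion of the residues `t` modulo `p` for which the angle of `y² = x³ + f(t) x + g(t)` at `p` is in `S`. -/
noncomputable def proportion (f g : ℤ[X]) (p : ℕ) (S : Set ℝ) : ℝ :=
  ((range p).filter (fun t : ℕ => angle (f.eval (t : ℤ)) (g.eval (t : ℤ)) p ∈ S)).card / p

/-- The expected number: the sum over `k < L` of the product of the proportions at the `s` primes. -/
noncomputable def boxModel {s : ℕ} (f g : ℤ[X]) (I : Fin s → Set ℝ) (L : ℕ) : ℝ :=
  ∑ k ∈ range L, ∏ i : Fin s, proportion f g (Nat.nth Nat.Prime (k + i)) (I i)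

theorem points_congr (p : ℕ) {A A' B B' : ℤ} (hA : (p : ℤ) ∣ A - A') (hB : (p : ℤ) ∣ B - B') :
    points p A B = points p A' B' := by
  unfold points
  congr 1
  apply filter_congr
  intro xy _
  have h : (p : ℤ) ∣ ((xy.2 : ℤ) ^ 2 - ((xy.1 : ℤ) ^ 3 + A * xy.1 + B)) -
      ((xy.2 : ℤ) ^ 2 - ((xy.1 : ℤ) ^ 3 + A' * xy.1 + B')) := by
    have e : ((xy.2 : ℤ) ^ 2 - ((xy.1 : ℤ) ^ 3 + A * xy.1 + B)) -
      ((xy.2 : ℤ) ^ 2 - ((xy.1 : ℤ) ^ 3 + A' * xy.1 + B')) = -((A - A') * xy.1 + (B - B')) := by ring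
    rw [e]
    exact (dvd_add (hA.mul_right _) hB).neg_right
  exact (dvd_iff_dvd_of_dvd_sub h)

theorem angle_congr (p : ℕ) {A A' B B' : ℤ} (hA : (p : ℤ) ∣ A - A') (hB : (p : ℤ) ∣ B - B') :
    angle A B p = angle A' B' p := by
  unfold angle
  rw [points_congr p hA hB]
  have h : (p : ℤ) ∣ 2 * (4 * A ^ 3 + 27 * B ^ 2) - 2 * (4 * A' ^ 3 + 27 * B' ^ 2) := by
    have e : 2 * (4 * A ^ 3 + 27 * B ^ 2) - 2 * (4 * A' ^ 3 + 27 * B' ^ 2) =
      (A - A') * (8 * (A ^ 2 + A * A' + A' ^ 2)) + (B - B') * (54 * (B + B')) := by ring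
    rw [e]
    exact dvd_add (hA.mul_right _) (hB.mul_right _)
  have h2 := dvd_iff_dvd_of_dvd_sub h
  by_cases h3 : (p : ℤ) ∣ 2 * (4 * A ^ 3 + 27 * B ^ 2)
  · rw [if_pos h3, if_pos (h2.mp h3)]
  · rw [if_neg h3, if_neg (fun h4 => h3 (h2.mpr h4))]

theorem angle_per (f g : ℤ[X]) (p : ℕ) (t : ℤ) :
    angle (f.eval (t + p)) (g.eval (t + p)) p = angle (f.eval t) (g.eval t) p := by
  have hd : ∀ f : ℤ[X], (p : ℤ) ∣ f.eval (t + p) - f.eval t := by
    intro f
    have := f.sub_dvd_eval_sub (t + p) t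
    rwa [add_sub_cancel_left] at this
  exact angle_congr p (hd f) (hd g)

theorem count_eq {s : ℕ} (A B : ℤ) (I : Fin s → Set ℝ) (L : ℕ) : (boxCount A B I L : ℝ) = ∑ k ∈ range L,
    Pool.Agent.TH869.SQ.ind I (fun i : Fin s => angle A B (Pool.Agent.TH869.SQ.pr (k + i))) := by
  unfold boxCount Pool.Agent.TH869.SQ.ind Pool.Agent.TH869.SQ.pr
  rw [sum_boole]

theorem model_eq {s : ℕ} (f g : ℤ[X]) (I : Fin s → Set ℝ) (L : ℕ) : boxModel f g I L = ∑ k ∈ range L, ∏ i : Fin s,
    Pool.Agent.TH869.SQ.mean (Pool.Agent.TH869.SQ.pr (k + i)) (fun t : ℕ => Pool.Agent.TH869.SQ.ind1 (I i)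
      (angle (f.eval (t : ℤ)) (g.eval (t : ℤ)) (Pool.Agent.TH869.SQ.pr (k + i)))) := by
  unfold boxModel proportion Pool.Agent.TH869.SQ.mean Pool.Agent.TH869.SQ.ind1 Pool.Agent.TH869.SQ.pr
  refine sum_congr rfl fun k _ => prod_congr rfl fun i _ => ?_
  rw [sum_boole]

/-- The probability of the integer `n < b ^ K` if its digits in base `b` are independent and the digit number `i` has the
value `a` with the probability `w i a`. -/
noncomputable def prob (b : ℕ) (w : ℕ → ℕ → ℝ) (K n : ℕ) : ℝ := ∏ i ∈ range K, w i (n / b ^ i % b)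

/-- Let `b ≥ 2`, `η > 0`, `s ≥ 1` and `δ > 0`. There are `c > 0` and `C` such that for all `K ≥ 1`, all laws of `K` digits in
base `b` for which no value of a digit has a probability larger than `1 - η`, and ALL polynomials `f, g ∈ ℤ[T]`, the random
integer `n < b ^ K` with independent digits with these laws has the following property outside of a set `E` of a probability
of at most `C exp (-c √K)`: for every `L ≤ exp (c √K)` and every product of `s` intervals, the number of the `k < L` such that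
the Frobenius angles of the elliptic curve `y² = x³ + f(n) x + g(n)` at the `s` consecutive primes with the numbers
`k, ..., k + s - 1` are in the intervals differs from the expected number by at most `C L ^ (1 / 2 + δ) K ^ (1 / 4)`. -/
theorem result (b : ℕ) (hb : 2 ≤ b) (η : ℝ) (hη : 0 < η) (s : ℕ) (hs : 1 ≤ s) (δ : ℝ) (hδ : 0 < δ) :
    ∃ c C : ℝ, 0 < c ∧ 1 ≤ C ∧ ∀ K : ℕ, 1 ≤ K → ∀ w : ℕ → ℕ → ℝ,
      (∀ i a, 0 ≤ w i a) → (∀ i, ∑ a ∈ range b, w i a = 1) → (∀ i a, w i a ≤ 1 - η) → ∀ f g : ℤ[X],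
      ∃ E : Finset ℕ, E ⊆ range (b ^ K) ∧ ∑ n ∈ E, prob b w K n ≤ C * Real.exp (-(c * √K)) ∧
        ∀ n < b ^ K, n ∉ E → ∀ L : ℕ, (L : ℝ) ≤ Real.exp (c * √K) →
          ∀ I : Fin s → Set ℝ, (∀ i, (I i).OrdConnected) →
            |(boxCount (f.eval (n : ℤ)) (g.eval (n : ℤ)) I L : ℝ) - boxModel f g I L| ≤
              C * ((L : ℝ) ^ (1 / 2 + δ) * (K : ℝ) ^ (1 / 4 : ℝ)) := by
  rcases le_or_gt η 1 with hη1 | hη1
  · obtain ⟨c, C, hc, hC, H⟩ := Pool.Agent.HP25.FA.dig_consecutive b hb η hη hη1 s hs δ hδ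
    refine ⟨c, C, hc, hC, fun K hK w h1 h2 h3 f g => ?_⟩
    obtain ⟨E, hE0, hE1, hE2⟩ := H K hK w ⟨h1, h2, h3⟩ (fun p n => angle (f.eval (n : ℤ)) (g.eval (n : ℤ)) p) (by
      intro p n
      show angle (f.eval (((n + p : ℕ)) : ℤ)) (g.eval ((n + p : ℕ) : ℤ)) p = _
      push_cast
      exact angle_per f g p n)
    refine ⟨E, hE0, ?_, fun n hn hnE L hL I hI => ?_⟩
    · have e : ∀ n ∈ E, Pool.Agent.TH872.Sq.P b w 0 K n = prob b w K n := by
        intro n _
        unfold Pool.Agent.TH872.Sq.P prob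
        simp only [zero_add]
      rw [sum_congr rfl e] at hE1
      exact hE1
    · have h := hE2 n hn hnE L hL I hI
      rw [sum_sub_distrib] at h
      rw [count_eq, model_eq]
      exact h
  · refine ⟨1, 1, one_pos, le_rfl, fun K hK w h1 h2 h3 f g => ?_⟩
    exfalso
    have := h1 0 0
    have := h3 0 0
    linarith

end Pool.Agent.Results.MP_29be01_nt.RandomDigits
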